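import Pool.Agent.N766.TK.Dim

namespace Pool.Agent.Results.MP_141d59_an.ZeroDim

/-- The distance from `x` to the nearest integer. -/
noncomputable def dist1 (x : ℝ) : ℝ := |x - round x|

/-- `ω` is a family of sign functions as in the definition of the class `T_v`: for each `n`,
`ω n` takes values in `{-1, 1}` and is constant on each `[j/2^n, (j+1)/2^n)`,
`j = 0, ..., 2^n - 1`. -/
def IsSignFamily (ω : ℕ → ℝ → ℝ) : Prop :=
  ∀ n : ℕ, (∀ x : ℝ, ω n x = 1 ∨ ω n x = -1) ∧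
    ∀ j : ℕ, j < 2 ^ n → ∃ c : ℝ, ∀ x ∈ Set.Ico ((j : ℝ) / 2 ^ n) (((j : ℝ) + 1) / 2 ^ n),
      ω n x = c

/-- The generalised Takagi function `∑ ω_n(x) 2^{-n} dist1 (2^n x)`. -/
noncomputable def takagi (ω : ℕ → ℝ → ℝ) (x : ℝ) : ℝ :=
  ∑' n : ℕ, ω n x / 2 ^ n * dist1 (2 ^ n * x)

/-- The level set `{x ∈ [0,1] : f(x) = y}`. -/
def levelSet (ω : ℕ → ℝ → ℝ) (y : ℝ) : Set ℝ :=
  {x : ℝ | x ∈ Set.Icc (0 : ℝ) 1 ∧ takagi ω x = y}

/-- There is a generalised Takagi function in `T_v` all of whose level sets have Hausdorff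
dimension `0`; moreover each level set meets at most `8 (n+1)^2` of the `2^n` dyadic intervals
`[j/2^n, (j+1)/2^n)` of level `n`, for every `n`. -/
theorem result : ∃ ω : ℕ → ℝ → ℝ, IsSignFamily ω ∧
    (∀ y : ℝ, dimH (levelSet ω y) = 0) ∧
    ∀ (y : ℝ) (n : ℕ), {j : ℕ | j < 2 ^ n ∧
      (levelSet ω y ∩ Set.Ico ((j : ℝ) / 2 ^ n) (((j : ℝ) + 1) / 2 ^ n)).Nonempty}.ncard ≤
        8 * (n + 1) ^ 2 := by
  refine ⟨Pool.Agent.N766.TK.sg, ?_, ?_, ?_⟩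
  · intro n
    refine ⟨Pool.Agent.N766.TK.sg_cases n, fun j _ => ?_⟩
    refine ⟨((Pool.Agent.N766.TK.om (Pool.Agent.N766.TK.st n j).1
      (Pool.Agent.N766.TK.st n j).2.1 (Pool.Agent.N766.TK.st n j).2.2 : ℤ) : ℝ), fun x hx => ?_⟩
    unfold Pool.Agent.N766.TK.sg
    rw [Pool.Agent.N766.TK.J_eq hx]
  · intro y
    exact Pool.Agent.N766.TK.dim_zero y
  · intro y n
    exact Pool.Agent.N766.TK.hit_card y n

end Pool.Agent.Results.MP_141d59_an.ZeroDim
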